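import Mathlib
import Pool.Agent.H587.FD.Kernel

set_option autoImplicit false

open Finset MeasureTheory Filter

namespace Pool.Agent.H587.PI

open Pool.Agent.H587.FD (e e_add e_neg norm_e e_eq e_zero e_int)

/-- Dirichlet sum -/
noncomputable def Dk (H : ℕ) (y : ℝ) : ℂ := ∑ h ∈ range H, e ((h : ℝ) * y)

lemma Dk_lower (H : ℕ) (hH : 1 ≤ H) (y : ℝ) (hy : |y - round y| ≤ 1 / (8 * (H : ℝ))) : (H : ℝ) / 2 ≤ ‖Dk H y‖ := by
  have h1 : ∀ h ∈ range H, 1 / 2 ≤ (e ((h : ℝ) * y)).re := by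
    intro h hh
    rw [mem_range] at hh
    have e1 : e ((h : ℝ) * y) = e ((h : ℝ) * (y - round y)) := by
      have : (h : ℝ) * y = h * (y - round y) + ((h * round y : ℤ) : ℝ) := by push_cast; ring
      rw [this, e_add, e_int, mul_one]
    have e2 : (e ((h : ℝ) * (y - round y))).re = Real.cos (2 * Real.pi * ((h : ℝ) * (y - round y))) := by
      rw [e_eq]
      simp only [Complex.add_re, Complex.ofReal_re, Complex.mul_re, Complex.I_re, Complex.ofReal_im, Complex.I_im]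
      ring
    rw [e1, e2]
    have h2 : |(h : ℝ) * (y - round y)| ≤ 1 / 8 := by
      rw [abs_mul, abs_of_nonneg (Nat.cast_nonneg h)]
      have h3 : (h : ℝ) ≤ H := by exact_mod_cast hh.le
      have h4 : (0 : ℝ) < H := by exact_mod_cast hH
      calc (h : ℝ) * |y - round y| ≤ H * (1 / (8 * H)) := by gcongr
        _ = 1 / 8 := by field_simp
    have h5 := Real.one_sub_sq_div_two_le_cos (x := 2 * Real.pi * ((h : ℝ) * (y - round y)))
    have h6 : (2 * Real.pi * ((h : ℝ) * (y - round y))) ^ 2 ≤ 1 := by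
      rw [sq_le_one_iff_abs_le_one, abs_mul, abs_of_pos Real.two_pi_pos]
      have h7 := Real.pi_lt_d2
      have h8 := Real.pi_pos
      have h9 := abs_nonneg ((h : ℝ) * (y - round y))
      nlinarith
    linarith
  calc (H : ℝ) / 2 = ∑ h ∈ range H, (1 / 2 : ℝ) := by rw [sum_const, card_range, nsmul_eq_mul]; ring
    _ ≤ ∑ h ∈ range H, (e ((h : ℝ) * y)).re := sum_le_sum h1
    _ = (Dk H y).re := by unfold Dk; rw [Complex.re_sum]
    _ ≤ ‖Dk H y‖ := Complex.re_le_norm _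

lemma normSq_Dk (H : ℕ) (y : ℝ) : ((‖Dk H y‖ ^ 2 : ℝ) : ℂ) =
    ∑ h ∈ range H, ∑ h' ∈ range H, e (((h : ℝ) - h') * y) := by
  rw [← Complex.normSq_eq_norm_sq, ← Complex.mul_conj]
  unfold Dk
  rw [map_sum, sum_mul_sum]
  apply sum_congr rfl
  intro h _
  apply sum_congr rfl
  intro h' _
  rw [← e_neg, ← e_add]
  congr 1
  ring

lemma int_e (μ : Measure ℝ) [IsProbabilityMeasure μ] (c d : ℝ) : Integrable (fun x => e (c * (d * x - 0) )) μ := by
  refine Integrable.of_bound (C := 1) (Continuous.aestronglyMeasurable ?_) (Eventually.of_forall fun x => (norm_e _).le)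
  unfold e
  fun_prop

lemma int_e2 (μ : Measure ℝ) [IsProbabilityMeasure μ] (c d g : ℝ) : Integrable (fun x => e (c * (d * x - g))) μ := by
  refine Integrable.of_bound (C := 1) (Continuous.aestronglyMeasurable ?_) (Eventually.of_forall fun x => (norm_e _).le)
  unfold e
  fun_prop

lemma sum_inj (s t : Finset ℕ) (i : ℕ → ℕ) (φ : ℕ → ℝ) (hφ : ∀ k, 0 ≤ φ k) (h1 : ∀ a ∈ s, i a ∈ t)
    (h2 : ∀ a ∈ s, ∀ b ∈ s, i a = i b → a = b) : ∑ a ∈ s, φ (i a) ≤ ∑ k ∈ t, φ k := by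
  classical
  rw [← sum_image (f := φ) (g := i) (s := s) (fun a ha b hb h => h2 a ha b hb h)]
  exact sum_le_sum_of_subset_of_nonneg (image_subset_iff.2 h1) (fun k _ _ => hφ k)

lemma double_sum (H : ℕ) (φ : ℕ → ℝ) (hφ : ∀ k, 0 ≤ φ k) (F : ℕ → ℕ → ℝ)
    (hF : ∀ h h', F h h' ≤ φ ((h : ℤ) - h').natAbs) :
    ∑ h ∈ range H, ∑ h' ∈ range H, F h h' ≤ H * (2 * ∑ k ∈ range H, φ k) := by
  have h1 : ∀ h ∈ range H, ∑ h' ∈ range H, F h h' ≤ 2 * ∑ k ∈ range H, φ k := by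
    intro h hh
    rw [mem_range] at hh
    refine (sum_le_sum (fun h' _ => hF h h')).trans ?_
    rw [← sum_filter_add_sum_filter_not (range H) (fun h' => h' ≤ h)]
    have h2 : ∑ h' ∈ (range H).filter (fun h' => h' ≤ h), φ ((h : ℤ) - h').natAbs ≤ ∑ k ∈ range H, φ k := by
      apply sum_inj _ _ (fun h' => ((h : ℤ) - h').natAbs) φ hφ
      · intro a ha
        rw [mem_filter, mem_range] at ha
        rw [mem_range]
        omega
      · intro a ha b hb hab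
        rw [mem_filter, mem_range] at ha hb
        omega
    have h3 : ∑ h' ∈ (range H).filter (fun h' => ¬ h' ≤ h), φ ((h : ℤ) - h').natAbs ≤ ∑ k ∈ range H, φ k := by
      apply sum_inj _ _ (fun h' => ((h : ℤ) - h').natAbs) φ hφ
      · intro a ha
        rw [mem_filter, mem_range] at ha
        rw [mem_range]
        omega
      · intro a ha b hb hab
        rw [mem_filter, mem_range] at ha hb
        omega
    linarith
  refine (sum_le_sum h1).trans (le_of_eq ?_)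
  rw [sum_const, card_range, nsmul_eq_mul]

lemma sum_rpow (δ : ℝ) (hδ0 : 0 < δ) (hδ1 : δ < 1) (H : ℕ) :
    ∑ k ∈ range H, ((k : ℝ) + 1) ^ (-δ) ≤ (H : ℝ) ^ (1 - δ) / (1 - δ) := by
  induction H with
  | zero =>
    simp only [range_zero, sum_empty, Nat.cast_zero]
    have : (0 : ℝ) < 1 - δ := by linarith
    positivity
  | succ n ih =>
    rw [sum_range_succ]
    have h0 : (0 : ℝ) < 1 - δ := by linarith
    have hn : (0 : ℝ) < (n : ℝ) + 1 := by positivity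
    have h3 : -1 ≤ -(1 / ((n : ℝ) + 1)) := by
      rw [neg_le_neg_iff, div_le_one hn]
      have : (0 : ℝ) ≤ n := Nat.cast_nonneg _
      linarith
    have h4 : (1 + -(1 / ((n : ℝ) + 1))) ^ (1 - δ) ≤ 1 + (1 - δ) * -(1 / ((n : ℝ) + 1)) :=
      rpow_one_add_le_one_add_mul_self h3 (by linarith) (by linarith)
    have e1 : (n : ℝ) = ((n : ℝ) + 1) * (1 + -(1 / ((n : ℝ) + 1))) := by
      field_simp
      ring
    have h5 : (n : ℝ) ^ (1 - δ) ≤ ((n : ℝ) + 1) ^ (1 - δ) * (1 + (1 - δ) * -(1 / ((n : ℝ) + 1))) := by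
      nth_rewrite 1 [e1]
      rw [Real.mul_rpow hn.le (by linarith)]
      exact mul_le_mul_of_nonneg_left h4 (by positivity)
    have e2 : ((n : ℝ) + 1) ^ (1 - δ) * (1 / ((n : ℝ) + 1)) = ((n : ℝ) + 1) ^ (-δ) := by
      rw [sub_eq_add_neg, Real.rpow_add hn, Real.rpow_one]
      field_simp
    have h6 : ((n : ℝ) + 1) ^ (1 - δ) * (1 + (1 - δ) * -(1 / ((n : ℝ) + 1))) =
        ((n : ℝ) + 1) ^ (1 - δ) - (1 - δ) * ((n : ℝ) + 1) ^ (-δ) := by
      rw [← e2]; ring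
    rw [h6] at h5
    rw [le_div_iff₀ h0] at ih ⊢
    push_cast
    linarith

/-- the upper bound for the measure of the approximable points -/
theorem upper (μ : Measure ℝ) [IsProbabilityMeasure μ] (C δ : ℝ) (hδ0 : 0 < δ) (hδ1 : δ < 1)
    (hμ : ∀ n : ℤ, n ≠ 0 → ‖∫ x, e (n * x) ∂μ‖ ≤ C * |(n : ℝ)| ^ (-δ)) :
    ∃ C₁ : ℝ, 0 < C₁ ∧ ∀ q : ℕ, 1 ≤ q → ∀ γ r : ℝ, 0 < r →
      μ.real {β : ℝ | |(q * β - γ) - round (q * β - γ)| < r} ≤ C₁ * (r + (r / q) ^ δ) := by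
  have h1δ : 0 < 1 - δ := by linarith
  refine ⟨128 + 128 * (|C| / (1 - δ)), by positivity, fun q hq γ r hr => ?_⟩
  have hq0 : (0 : ℝ) < q := by exact_mod_cast hq
  have hrq : 0 ≤ (r / q) ^ δ := by positivity
  have hCδ : 0 ≤ |C| / (1 - δ) := by positivity
  rcases lt_or_ge (1 / 8) r with hr8 | hr8
  · have h1 : μ.real {β : ℝ | |(q * β - γ) - round (q * β - γ)| < r} ≤ 1 := measureReal_le_one
    have h2 : 128 * r ≤ (128 + 128 * (|C| / (1 - δ))) * (r + (r / q) ^ δ) := by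
      have h3 : 128 * r ≤ (128 + 128 * (|C| / (1 - δ))) * r := by
        apply mul_le_mul_of_nonneg_right _ hr.le
        linarith
      have h4 : (128 + 128 * (|C| / (1 - δ))) * r ≤ (128 + 128 * (|C| / (1 - δ))) * (r + (r / q) ^ δ) := by
        apply mul_le_mul_of_nonneg_left _ (by positivity)
        linarith
      linarith
    linarith
  set H := ⌊1 / (8 * r)⌋₊ with hH
  have hx : 1 ≤ 1 / (8 * r) := by
    rw [le_div_iff₀ (by positivity)]; linarith
  have hH1 : 1 ≤ H := Nat.le_floor (by simpa using hx)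
  have hHr : (H : ℝ) ≤ 1 / (8 * r) := Nat.floor_le (by positivity)
  have hHr2 : 1 / (8 * r) < H + 1 := Nat.lt_floor_add_one _
  have hH0 : (0 : ℝ) < H := by exact_mod_cast hH1
  have hH1' : (1 : ℝ) ≤ H := by exact_mod_cast hH1
  have hrH : r ≤ 1 / (8 * H) := by
    rw [le_div_iff₀ (by positivity)]
    rw [le_div_iff₀ (by positivity)] at hHr
    linarith
  have hHinv : 1 / (H : ℝ) ≤ 16 * r := by
    rw [div_lt_iff₀ (by positivity)] at hHr2
    rw [div_le_iff₀ hH0]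
    nlinarith
  -- the second moment
  set G : ℝ → ℝ := fun β => ‖Dk H (q * β - γ)‖ ^ 2 with hG
  set φ : ℕ → ℝ := fun k => if k = 0 then 1 else |C| * ((k : ℝ) * q) ^ (-δ) with hφ
  have hφ0 : ∀ k, 0 ≤ φ k := by
    intro k
    simp only [hφ]
    split_ifs
    · norm_num
    · positivity
  have hGint : Integrable G μ := by
    refine Integrable.of_bound (C := (H : ℝ) ^ 2) (Continuous.aestronglyMeasurable ?_) (Eventually.of_forall fun x => ?_)
    · simp only [hG, Dk]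
      unfold e
      fun_prop
    · simp only [hG]
      rw [Real.norm_eq_abs, abs_of_nonneg (by positivity)]
      apply pow_le_pow_left₀ (norm_nonneg _)
      unfold Dk
      refine (norm_sum_le _ _).trans ?_
      simp [norm_e]
  have hsecond : ∫ β, G β ∂μ ≤ H * (2 * ∑ k ∈ range H, φ k) := by
    have h1 : ((∫ β, G β ∂μ : ℝ) : ℂ) = ∑ h ∈ range H, ∑ h' ∈ range H, ∫ β, e (((h : ℝ) - h') * (q * β - γ)) ∂μ := by
      rw [← integral_complex_ofReal]
      simp only [hG, normSq_Dk]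
      rw [integral_finsetSum _ (fun h _ => integrable_finsetSum _ (fun h' _ => int_e2 μ _ _ _))]
      apply sum_congr rfl
      intro h _
      rw [integral_finsetSum _ (fun h' _ => int_e2 μ _ _ _)]
    have h2 : ∫ β, G β ∂μ = ‖((∫ β, G β ∂μ : ℝ) : ℂ)‖ := by
      rw [Complex.norm_real, Real.norm_eq_abs, abs_of_nonneg]
      exact integral_nonneg (fun β => by simp only [hG]; positivity)
    rw [h2, h1]
    refine (norm_sum_le _ _).trans ?_
    refine (sum_le_sum (fun h _ => norm_sum_le _ _)).trans ?_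
    apply double_sum H φ hφ0 (fun h h' => ‖∫ β, e (((h : ℝ) - h') * (q * β - γ)) ∂μ‖)
    intro h h'
    have h3 : ∀ β : ℝ, e (((h : ℝ) - h') * (q * β - γ)) = e (-(((h : ℝ) - h') * γ)) * e ((((h - h' : ℤ) * (q : ℤ) : ℤ) : ℝ) * β) := by
      intro β
      rw [← e_add]
      congr 1
      push_cast
      ring
    simp only [h3]
    rw [integral_const_mul, norm_mul, norm_e, one_mul]
    simp only [hφ]
    split_ifs with h4
    · have h5 : (h - h' : ℤ) = 0 := Int.natAbs_eq_zero.1 h4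
      rw [h5]
      simp [e_zero]
    · have h5 : ((h - h' : ℤ) * (q : ℤ) : ℤ) ≠ 0 := by
        apply mul_ne_zero
        · intro h6
          apply h4
          rw [h6]; rfl
        · omega
      refine (hμ _ h5).trans ?_
      have h6 : |((((h - h' : ℤ) * (q : ℤ) : ℤ)) : ℝ)| = (((h : ℤ) - h').natAbs : ℝ) * q := by
        push_cast
        rw [abs_mul, abs_of_pos hq0]
        congr 1
        rw [Nat.cast_natAbs]
        push_cast
        rfl
      rw [h6]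
      have h7 : (0 : ℝ) ≤ ((((h : ℤ) - h').natAbs : ℝ) * q) ^ (-δ) := by positivity
      exact mul_le_mul_of_nonneg_right (le_abs_self C) h7
  have hsum : ∑ k ∈ range H, φ k ≤ 1 + |C| / (1 - δ) * ((q : ℝ) ^ (-δ) * (H : ℝ) ^ (1 - δ)) := by
    obtain ⟨H', hH'⟩ : ∃ H', H = H' + 1 := ⟨H - 1, by omega⟩
    have h1 : ∑ k ∈ range H', φ (k + 1) = |C| * (q : ℝ) ^ (-δ) * ∑ k ∈ range H', ((k : ℝ) + 1) ^ (-δ) := by
      rw [mul_sum]
      apply sum_congr rfl
      intro k _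
      simp only [hφ]
      rw [if_neg (by omega)]
      push_cast
      rw [Real.mul_rpow (by positivity) hq0.le]
      ring
    have h2 := sum_rpow δ hδ0 hδ1 H'
    have h3 : (H' : ℝ) ^ (1 - δ) ≤ (H : ℝ) ^ (1 - δ) := by
      apply Real.rpow_le_rpow (by positivity) _ h1δ.le
      rw [hH']; push_cast; linarith
    rw [hH', sum_range_succ', h1]
    have h4 : φ 0 = 1 := by simp [hφ]
    rw [h4]
    have h5 : |C| * (q : ℝ) ^ (-δ) * ∑ k ∈ range H', ((k : ℝ) + 1) ^ (-δ) ≤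
        |C| * (q : ℝ) ^ (-δ) * ((H : ℝ) ^ (1 - δ) / (1 - δ)) := by
      apply mul_le_mul_of_nonneg_left _ (by positivity)
      refine h2.trans ?_
      gcongr
    rw [← hH']
    have h6 : |C| * (q : ℝ) ^ (-δ) * ((H : ℝ) ^ (1 - δ) / (1 - δ)) = |C| / (1 - δ) * ((q : ℝ) ^ (-δ) * (H : ℝ) ^ (1 - δ)) := by
      ring
    linarith
  -- Markov
  have hmarkov : (H : ℝ) ^ 2 / 4 * μ.real {β : ℝ | (H : ℝ) ^ 2 / 4 ≤ G β} ≤ ∫ β, G β ∂μ :=
    mul_meas_ge_le_integral_of_nonneg (Eventually.of_forall fun β => by simp only [hG]; positivity) hGint _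
  have hsub : {β : ℝ | |(q * β - γ) - round (q * β - γ)| < r} ⊆ {β : ℝ | (H : ℝ) ^ 2 / 4 ≤ G β} := by
    intro β hβ
    rw [Set.mem_ofPred_eq] at hβ ⊢
    have h1 := Dk_lower H hH1 (q * β - γ) (hβ.le.trans hrH)
    simp only [hG]
    have h2 : ((H : ℝ) / 2) ^ 2 ≤ ‖Dk H (q * β - γ)‖ ^ 2 := pow_le_pow_left₀ (by positivity) h1 2
    linarith
  have h1 : μ.real {β : ℝ | |(q * β - γ) - round (q * β - γ)| < r} ≤ μ.real {β : ℝ | (H : ℝ) ^ 2 / 4 ≤ G β} :=
    measureReal_mono hsub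
  refine h1.trans ?_
  have h2 : (H : ℝ) ^ 2 / 4 * μ.real {β : ℝ | (H : ℝ) ^ 2 / 4 ≤ G β} ≤
      H * (2 * (1 + |C| / (1 - δ) * ((q : ℝ) ^ (-δ) * (H : ℝ) ^ (1 - δ)))) := by
    refine hmarkov.trans (hsecond.trans ?_)
    gcongr
  have h3 : μ.real {β : ℝ | (H : ℝ) ^ 2 / 4 ≤ G β} ≤ 8 / H + 8 * (|C| / (1 - δ)) * ((q : ℝ) ^ (-δ) * (H : ℝ) ^ (-δ)) := by
    have e1 : (H : ℝ) ^ (1 - δ) = H * (H : ℝ) ^ (-δ) := by
      rw [sub_eq_add_neg, Real.rpow_add hH0, Real.rpow_one]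
    rw [e1] at h2
    have h4 : μ.real {β : ℝ | (H : ℝ) ^ 2 / 4 ≤ G β} = ((H : ℝ) ^ 2 / 4 * μ.real {β : ℝ | (H : ℝ) ^ 2 / 4 ≤ G β}) * (4 / (H : ℝ) ^ 2) := by
      field_simp
    rw [h4]
    calc ((H : ℝ) ^ 2 / 4 * μ.real {β : ℝ | (H : ℝ) ^ 2 / 4 ≤ G β}) * (4 / (H : ℝ) ^ 2) ≤
        (H * (2 * (1 + |C| / (1 - δ) * ((q : ℝ) ^ (-δ) * (H * (H : ℝ) ^ (-δ)))))) * (4 / (H : ℝ) ^ 2) := by
          gcongr
      _ = 8 / H + 8 * (|C| / (1 - δ)) * ((q : ℝ) ^ (-δ) * (H : ℝ) ^ (-δ)) := by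
          field_simp
          ring
  have h4 : (q : ℝ) ^ (-δ) * (H : ℝ) ^ (-δ) ≤ 16 * (r / q) ^ δ := by
    have e1 : (q : ℝ) ^ (-δ) * (H : ℝ) ^ (-δ) = (1 / (H : ℝ) / q) ^ δ := by
      rw [Real.rpow_neg hq0.le, Real.rpow_neg hH0.le, Real.div_rpow (by positivity) hq0.le,
        Real.div_rpow zero_le_one hH0.le, Real.one_rpow]
      field_simp
    rw [e1]
    have h5 : (1 / (H : ℝ) / q) ^ δ ≤ (16 * (r / q)) ^ δ := by
      apply Real.rpow_le_rpow (by positivity) _ hδ0.le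
      rw [← mul_div_assoc]
      gcongr
    refine h5.trans ?_
    rw [Real.mul_rpow (by norm_num) (by positivity)]
    have h6 : (16 : ℝ) ^ δ ≤ 16 := by
      have := Real.rpow_le_rpow_of_exponent_le (x := (16 : ℝ)) (by norm_num) hδ1.le
      rwa [Real.rpow_one] at this
    gcongr
  have h5 : 8 / (H : ℝ) ≤ 128 * r := by
    have : 8 / (H : ℝ) = 8 * (1 / H) := by ring
    rw [this]; linarith
  calc μ.real {β : ℝ | (H : ℝ) ^ 2 / 4 ≤ G β} ≤ 8 / H + 8 * (|C| / (1 - δ)) * ((q : ℝ) ^ (-δ) * (H : ℝ) ^ (-δ)) := h3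
    _ ≤ 128 * r + 8 * (|C| / (1 - δ)) * (16 * (r / q) ^ δ) := by gcongr
    _ ≤ (128 + 128 * (|C| / (1 - δ))) * (r + (r / q) ^ δ) := by
        have h6 : 0 ≤ 128 * (|C| / (1 - δ)) * r := by positivity
        have h7 : 0 ≤ 128 * (r / q) ^ δ := by positivity
        nlinarith

end Pool.Agent.H587.PI
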