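import Mathlib
import Pool.Agent.H587.PI.Upper

set_option autoImplicit false

open Finset MeasureTheory Filter

namespace Pool.Agent.H587.PI

open Pool.Agent.H587.FD (e)

lemma young (δ r q : ℝ) (hδ0 : 0 < δ) (hδ1 : δ < 1) (hr : 0 ≤ r) (hq : 0 < q) :
    (r / q) ^ δ ≤ r + q ^ (-(δ / (1 - δ))) := by
  have h1δ : 0 < 1 - δ := by linarith
  have h1 := Real.geom_mean_le_arith_mean2_weighted hδ0.le h1δ.le hr (Real.rpow_nonneg hq.le (-(δ / (1 - δ)))) (by ring)
  have e1 : (q ^ (-(δ / (1 - δ)))) ^ (1 - δ) = q ^ (-δ) := by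
    rw [← Real.rpow_mul hq.le]
    congr 1
    field_simp
  rw [e1] at h1
  have e2 : (r / q) ^ δ = r ^ δ * q ^ (-δ) := by
    rw [Real.div_rpow hr hq.le, Real.rpow_neg hq.le]
    rfl
  rw [e2]
  have h2 : 0 ≤ q ^ (-(δ / (1 - δ))) := Real.rpow_nonneg hq.le _
  nlinarith

theorem conv1 (μ : Measure ℝ) [IsProbabilityMeasure μ] (C δ : ℝ) (hδ : 1 / 2 < δ) (hδ1 : δ < 1)
    (hμ : ∀ n : ℤ, n ≠ 0 → ‖∫ x, e (n * x) ∂μ‖ ≤ C * |(n : ℝ)| ^ (-δ))
    (γ r : ℕ → ℝ) (hr0 : ∀ q, 0 ≤ r q) (hr : Summable r) :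
    ∀ᵐ β ∂μ, {q : ℕ | 1 ≤ q ∧ |(q * β - γ q) - round (q * β - γ q)| < r q}.Finite := by
  have hδ0 : 0 < δ := by linarith
  have h1δ : 0 < 1 - δ := by linarith
  obtain ⟨C₁, hC₁, hup⟩ := upper μ C δ hδ0 hδ1 hμ
  set s : ℕ → Set ℝ := fun q => {β | 1 ≤ q ∧ |(q * β - γ q) - round (q * β - γ q)| < r q} with hs
  set f : ℕ → ℝ := fun q => C₁ * (2 * r q + (q : ℝ) ^ (-(δ / (1 - δ)))) with hf
  have hfs : Summable f := by
    simp only [hf]
    apply Summable.mul_left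
    apply Summable.add (hr.mul_left 2)
    rw [Real.summable_nat_rpow]
    rw [neg_lt_neg_iff, lt_div_iff₀ h1δ]
    linarith
  have hle : ∀ q, μ (s q) ≤ ENNReal.ofReal (f q) := by
    intro q
    rcases Nat.eq_zero_or_pos q with h | h
    · have : s q = ∅ := by
        ext β
        simp only [hs, Set.mem_ofPred_eq, Set.mem_empty_iff_false, iff_false]
        omega
      rw [this]; simp
    · rcases (hr0 q).eq_or_lt with h0 | h0
      · have : s q = ∅ := by
          ext β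
          simp only [hs, Set.mem_ofPred_eq, Set.mem_empty_iff_false, iff_false, ← h0]
          intro hcon
          exact absurd hcon.2 (not_lt.2 (abs_nonneg _))
        rw [this]; simp
      · have h1 := hup q h (γ q) (r q) h0
        have h2 : s q = {β : ℝ | |(q * β - γ q) - round (q * β - γ q)| < r q} := by
          ext β
          simp only [hs, Set.mem_ofPred_eq]
          exact ⟨fun h => h.2, fun h' => ⟨h, h'⟩⟩
        rw [h2]
        have hq0 : (0 : ℝ) < q := by exact_mod_cast h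
        have h3 : C₁ * (r q + (r q / q) ^ δ) ≤ f q := by
          simp only [hf]
          have := young δ (r q) q hδ0 hδ1 (hr0 q) hq0
          apply mul_le_mul_of_nonneg_left _ hC₁.le
          linarith
        rw [← ofReal_measureReal]
        exact ENNReal.ofReal_le_ofReal (h1.trans h3)
  have htop : ∑' q, μ (s q) ≠ ⊤ := by
    refine ne_top_of_le_ne_top ?_ (ENNReal.tsum_le_tsum hle)
    exact hfs.tsum_ofReal_ne_top
  filter_upwards [ae_eventually_notMem htop] with β hβ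
  obtain ⟨N, hN⟩ := eventually_atTop.1 hβ
  refine (Set.finite_Iio N).subset ?_
  intro q hq
  rw [Set.mem_Iio]
  by_contra hcon
  exact hN q (not_lt.1 hcon) hq

theorem conv2 (μ : Measure ℝ) [IsProbabilityMeasure μ] (C δ : ℝ) (hδ : 1 / 2 < δ)
    (hμ : ∀ n : ℤ, n ≠ 0 → ‖∫ x, e (n * x) ∂μ‖ ≤ C * |(n : ℝ)| ^ (-δ))
    (γ r : ℕ → ℝ) (hr0 : ∀ q, 0 ≤ r q) (hr : Summable r) :
    ∀ᵐ β ∂μ, {q : ℕ | 1 ≤ q ∧ |(q * β - γ q) - round (q * β - γ q)| < r q}.Finite := by
  refine conv1 μ |C| (min δ (3 / 4)) (lt_min hδ (by norm_num)) ((min_le_right _ _).trans_lt (by norm_num)) ?_ γ r hr0 hr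
  intro n hn
  refine (hμ n hn).trans ?_
  have h1 : (1 : ℝ) ≤ |(n : ℝ)| := by
    have : (1 : ℤ) ≤ |n| := Int.one_le_abs hn
    exact_mod_cast this
  have h2 : |(n : ℝ)| ^ (-δ) ≤ |(n : ℝ)| ^ (-(min δ (3 / 4))) := by
    apply Real.rpow_le_rpow_of_exponent_le h1
    have := min_le_left δ (3 / 4)
    linarith
  have h3 : (0 : ℝ) ≤ |(n : ℝ)| ^ (-δ) := by positivity
  calc C * |(n : ℝ)| ^ (-δ) ≤ |C| * |(n : ℝ)| ^ (-δ) := mul_le_mul_of_nonneg_right (le_abs_self C) h3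
    _ ≤ _ := mul_le_mul_of_nonneg_left h2 (abs_nonneg C)

/-- the convergence half for irrational `α` -/
theorem part_conv (μ : Measure ℝ) [IsProbabilityMeasure μ] (C δ : ℝ) (hδ : 1 / 2 < δ)
    (hμ : ∀ n : ℤ, n ≠ 0 → ‖∫ x, e (n * x) ∂μ‖ ≤ C * |(n : ℝ)| ^ (-δ))
    (α : ℝ) (hα : Irrational α) (γ ψ : ℕ → ℝ) (hψ : ∀ q, 0 ≤ ψ q)
    (hs : Summable fun q : ℕ => ψ q / |q * α - round (q * α)|) :
    ∀ᵐ β ∂μ, {q : ℕ | |q * α - round (q * α)| * |(q * β - γ q) - round (q * β - γ q)| < ψ q}.Finite := by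
  filter_upwards [conv2 μ C δ hδ hμ γ (fun q : ℕ => ψ q / |q * α - round (q * α)|)
    (fun q => div_nonneg (hψ q) (abs_nonneg _)) hs] with β hβ
  refine (hβ.union (Set.finite_singleton 0)).subset ?_
  intro q hq
  rw [Set.mem_ofPred_eq] at hq
  rcases Nat.eq_zero_or_pos q with h | h
  · right; exact h
  · left
    refine ⟨h, ?_⟩
    have h1 : 0 < |q * α - round (q * α)| := by
      rw [abs_pos]
      intro h2
      have h3 : (q : ℝ) * α = round (q * α) := by linarith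
      apply hα
      refine ⟨(round (q * α) : ℚ) / q, ?_⟩
      push_cast
      rw [← h3]
      field_simp
    rw [lt_div_iff₀ h1]
    linarith

end Pool.Agent.H587.PI
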