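import Mathlib
set_option autoImplicit false
open Finset
namespace Pool.Agent.H587.PI

theorem summable_of_mono_block (a : ℕ → ℝ) (ha : ∀ q, 0 ≤ a q) (C : ℝ) (hC0 : 0 < C)
    (hC : ∀ Q : ℕ, 1 ≤ Q → ∑ q ∈ Icc 1 Q, a q ≤ C * (Q * (1 + Real.log Q)))
    (ψ : ℕ → ℝ) (hψ0 : ∀ q, 0 ≤ ψ q) (hψ : Antitone ψ) (N : ℕ) (hN : 2 ≤ N) :
    ∑ q ∈ Ico (2 * N) (4 * N), ψ q * a q ≤
      20 * C * ∑ q ∈ Ico N (2 * N), ψ q * Real.log q := by
  have hNR : (2 : ℝ) ≤ N := by exact_mod_cast hN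
  have hlog2 := Real.log_two_gt_d9
  have hlogN : Real.log 2 ≤ Real.log N := Real.log_le_log (by norm_num) hNR
  have h1 : ∑ q ∈ Ico (2 * N) (4 * N), ψ q * a q ≤
      ψ (2 * N) * ∑ q ∈ Ico (2 * N) (4 * N), a q := by
    rw [mul_sum]
    exact sum_le_sum fun q hq => mul_le_mul_of_nonneg_right (hψ (mem_Ico.1 hq).1) (ha q)
  have h2 : ∑ q ∈ Ico (2 * N) (4 * N), a q ≤ ∑ q ∈ Icc 1 (4 * N), a q := by
    refine sum_le_sum_of_subset_of_nonneg (fun q hq => ?_) (fun q _ _ => ha q)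
    rw [mem_Ico] at hq
    rw [mem_Icc]
    omega
  have h3 := hC (4 * N) (by omega)
  have h4 : (N : ℝ) * (ψ (2 * N) * Real.log N) ≤ ∑ q ∈ Ico N (2 * N), ψ q * Real.log q := by
    have h5 : ∑ q ∈ Ico N (2 * N), ψ (2 * N) * Real.log N ≤
        ∑ q ∈ Ico N (2 * N), ψ q * Real.log q := by
      refine sum_le_sum fun q hq => ?_
      rw [mem_Ico] at hq
      refine mul_le_mul (hψ hq.2.le) ?_ (by linarith) (hψ0 q)
      exact Real.log_le_log (by linarith) (by exact_mod_cast hq.1)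
    rw [sum_const, Nat.card_Ico, nsmul_eq_mul] at h5
    have e : 2 * N - N = N := by omega
    rwa [e] at h5
  have h5 : Real.log ((4 * N : ℕ) : ℝ) = 2 * Real.log 2 + Real.log N := by
    push_cast
    rw [Real.log_mul (by norm_num) (by linarith), show (4 : ℝ) = 2 ^ 2 by norm_num, Real.log_pow]
    push_cast
    ring
  have hp := hψ0 (2 * N)
  have h6 : ψ (2 * N) * ∑ q ∈ Ico (2 * N) (4 * N), a q ≤
      ψ (2 * N) * (C * (((4 * N : ℕ) : ℝ) * (1 + Real.log ((4 * N : ℕ) : ℝ)))) :=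
    mul_le_mul_of_nonneg_left (h2.trans h3) hp
  have h7 : (1 + Real.log ((4 * N : ℕ) : ℝ)) ≤ 5 * Real.log N := by
    rw [h5]
    linarith
  have h8 : ψ (2 * N) * (C * (((4 * N : ℕ) : ℝ) * (1 + Real.log ((4 * N : ℕ) : ℝ)))) ≤
      20 * C * ((N : ℝ) * (ψ (2 * N) * Real.log N)) := by
    calc ψ (2 * N) * (C * (((4 * N : ℕ) : ℝ) * (1 + Real.log ((4 * N : ℕ) : ℝ)))) ≤
          ψ (2 * N) * (C * (((4 * N : ℕ) : ℝ) * (5 * Real.log N))) := by gcongr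
      _ = _ := by
        push_cast
        ring
  exact h1.trans (h6.trans (h8.trans (mul_le_mul_of_nonneg_left h4 (by positivity))))

theorem summable_of_mono (a : ℕ → ℝ) (ha : ∀ q, 0 ≤ a q) (C : ℝ) (hC0 : 0 < C)
    (hC : ∀ Q : ℕ, 1 ≤ Q → ∑ q ∈ Icc 1 Q, a q ≤ C * (Q * (1 + Real.log Q)))
    (ψ : ℕ → ℝ) (hψ0 : ∀ q, 0 ≤ ψ q) (hψ : Antitone ψ) (hs : Summable fun q : ℕ => ψ q * Real.log q) :
    Summable fun q : ℕ => ψ q * a q := by
  have hc0 : ∀ q : ℕ, 0 ≤ ψ q * Real.log q := fun q =>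
    mul_nonneg (hψ0 q) (Real.log_natCast_nonneg q)
  have hb0 : ∀ q : ℕ, 0 ≤ ψ q * a q := fun q => mul_nonneg (hψ0 q) (ha q)
  have key : ∀ n : ℕ, ∑ q ∈ range (2 ^ (n + 2)), ψ q * a q ≤
      ∑ q ∈ range 4, ψ q * a q + 20 * C * ∑ q ∈ range (2 ^ (n + 1)), ψ q * Real.log q := by
    intro n
    induction n with
    | zero =>
      have h1 : 0 ≤ 20 * C * ∑ q ∈ range (2 ^ (0 + 1)), ψ q * Real.log q :=
        mul_nonneg (by positivity) (sum_nonneg fun q _ => hc0 q)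
      have e : (2 : ℕ) ^ (0 + 2) = 4 := by norm_num
      rw [e]
      linarith
    | succ n ih =>
      have hN : 2 ≤ 2 ^ (n + 1) := by
        calc 2 = 2 ^ 1 := by norm_num
          _ ≤ 2 ^ (n + 1) := Nat.pow_le_pow_right (by norm_num) (by omega)
      have h1 := summable_of_mono_block a ha C hC0 hC ψ hψ0 hψ (2 ^ (n + 1)) hN
      have e1 : 2 * 2 ^ (n + 1) = 2 ^ (n + 2) := by rw [pow_succ 2 (n + 1)]; ring
      have e2 : 4 * 2 ^ (n + 1) = 2 ^ (n + 1 + 2) := by rw [pow_add 2 (n + 1) 2]; ring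
      rw [e1, e2] at h1
      have h2 : ∑ q ∈ range (2 ^ (n + 1 + 2)), ψ q * a q =
          ∑ q ∈ range (2 ^ (n + 2)), ψ q * a q +
            ∑ q ∈ Ico (2 ^ (n + 2)) (2 ^ (n + 1 + 2)), ψ q * a q :=
        (sum_range_add_sum_Ico _ (Nat.pow_le_pow_right (by norm_num) (by omega))).symm
      have h3 : ∑ q ∈ range (2 ^ (n + 1 + 1)), ψ q * Real.log q =
          ∑ q ∈ range (2 ^ (n + 1)), ψ q * Real.log q +
            ∑ q ∈ Ico (2 ^ (n + 1)) (2 ^ (n + 1 + 1)), ψ q * Real.log q :=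
        (sum_range_add_sum_Ico _ (Nat.pow_le_pow_right (by norm_num) (by omega))).symm
      rw [h2, h3, mul_add]
      linarith
  refine summable_of_sum_range_le (c := ∑ q ∈ range 4, ψ q * a q +
    20 * C * ∑' q : ℕ, ψ q * Real.log q) hb0 fun n => ?_
  have h1 : n ≤ 2 ^ (n + 2) := (Nat.lt_two_pow_self).le.trans
    (Nat.pow_le_pow_right (by norm_num) (by omega))
  have h2 : ∑ q ∈ range n, ψ q * a q ≤ ∑ q ∈ range (2 ^ (n + 2)), ψ q * a q :=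
    sum_le_sum_of_subset_of_nonneg (range_subset_range.2 h1) fun q _ _ => hb0 q
  have h3 : ∑ q ∈ range (2 ^ (n + 1)), ψ q * Real.log q ≤ ∑' q : ℕ, ψ q * Real.log q :=
    hs.sum_le_tsum _ fun q _ => hc0 q
  have h4 := mul_le_mul_of_nonneg_left h3 (show 0 ≤ 20 * C by positivity)
  have h5 := key n
  linarith

end Pool.Agent.H587.PI
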