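import Mathlib
set_option autoImplicit false
open Finset
namespace Pool.Agent.H587.PI

theorem sum_inv (α c : ℝ) (hc : 0 < c) (h : ∀ q : ℕ, 1 ≤ q → c ≤ q * |(q : ℝ) * α - round ((q : ℝ) * α)|) :
    ∃ C : ℝ, 0 < C ∧ ∀ Q : ℕ, 1 ≤ Q →
      ∑ q ∈ Icc 1 Q, 1 / |(q : ℝ) * α - round ((q : ℝ) * α)| ≤ C * (Q * (1 + Real.log Q)) := by
  classical
  obtain ⟨y, hy⟩ : ∃ y : ℕ → ℝ, ∀ q, y q = (q : ℝ) * α - round ((q : ℝ) * α) := ⟨_, fun _ => rfl⟩
  obtain ⟨B, hB⟩ : ∃ B : ℝ, B = |Real.log (1 / (2 * c))| := ⟨_, rfl⟩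
  have hB0 : 0 ≤ B := by rw [hB]; exact abs_nonneg _
  refine ⟨2 / c * (1 + B), by positivity, ?_⟩
  intro Q hQ
  have hQr : (1 : ℝ) ≤ Q := by exact_mod_cast hQ
  have hQ0 : (0 : ℝ) < Q := by linarith
  have hlogQ : 0 ≤ Real.log Q := Real.log_nonneg hQr
  -- spacing
  have hsp0 : ∀ q q' : ℕ, q ∈ Icc 1 Q → q' ∈ Icc 1 Q → q' < q → c / Q ≤ |y q - y q'| := by
    intro q q' hq hq' hlt
    rw [mem_Icc] at hq hq'
    obtain ⟨r, hr⟩ : ∃ r : ℕ, q = q' + r := ⟨q - q', by omega⟩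
    have hr1 : 1 ≤ r := by omega
    have hrQ : (r : ℝ) ≤ Q := by exact_mod_cast (by omega : r ≤ Q)
    have hr0 : (0 : ℝ) < r := by exact_mod_cast hr1
    have h1 : y q - y q' = (r : ℝ) * α -
        ((round ((q : ℝ) * α) - round ((q' : ℝ) * α) : ℤ) : ℝ) := by
      rw [hy, hy, hr]
      push_cast
      ring
    have h2 := round_le ((r : ℝ) * α) (round ((q : ℝ) * α) - round ((q' : ℝ) * α))
    rw [← h1] at h2
    have h3 := h r hr1
    refine le_trans ?_ h2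
    rw [div_le_iff₀ hQ0]
    calc c ≤ r * |(r : ℝ) * α - round ((r : ℝ) * α)| := h3
      _ ≤ Q * |(r : ℝ) * α - round ((r : ℝ) * α)| := mul_le_mul_of_nonneg_right hrQ (abs_nonneg _)
      _ = |(r : ℝ) * α - round ((r : ℝ) * α)| * Q := mul_comm _ _
  have hsp : ∀ q q' : ℕ, q ∈ Icc 1 Q → q' ∈ Icc 1 Q → q ≠ q' → c / Q ≤ |y q - y q'| := by
    intro q q' hq hq' hne
    rcases lt_or_gt_of_ne hne with hlt | hlt
    · rw [abs_sub_comm]
      exact hsp0 q' q hq' hq hlt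
    · exact hsp0 q q' hq hq' hlt
  -- sizes
  have hlow : ∀ q ∈ Icc 1 Q, c / Q ≤ |y q| := by
    intro q hq
    rw [mem_Icc] at hq
    have h3 := h q hq.1
    rw [← hy q] at h3
    have hqQ : (q : ℝ) ≤ Q := by exact_mod_cast hq.2
    rw [div_le_iff₀ hQ0]
    calc c ≤ q * |y q| := h3
      _ ≤ Q * |y q| := mul_le_mul_of_nonneg_right hqQ (abs_nonneg _)
      _ = |y q| * Q := mul_comm _ _
  have hup : ∀ q, |y q| ≤ 1 / 2 := by
    intro q
    rw [hy]
    exact abs_sub_round _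
  obtain ⟨i, hi⟩ : ∃ i : ℕ → ℕ, ∀ q, i q = ⌊|y q| * Q / c⌋₊ := ⟨_, fun _ => rfl⟩
  obtain ⟨N, hN⟩ : ∃ N : ℕ, N = ⌊(Q : ℝ) / (2 * c)⌋₊ := ⟨_, rfl⟩
  have hi1 : ∀ q ∈ Icc 1 Q, 1 ≤ i q := by
    intro q hq
    rw [hi]
    apply Nat.le_floor
    have h1 := hlow q hq
    rw [div_le_iff₀ hQ0] at h1
    rw [Nat.cast_one, le_div_iff₀ hc]
    linarith
  have hiN : ∀ q, i q ≤ N := by
    intro q
    rw [hi, hN]
    apply Nat.floor_le_floor
    rw [div_le_div_iff₀ hc (by positivity)]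
    have h1 := mul_le_mul_of_nonneg_right (hup q) (mul_nonneg hQ0.le hc.le)
    nlinarith
  have hib : ∀ q ∈ Icc 1 Q, 1 / |y q| ≤ Q / c * (1 / (i q : ℝ)) := by
    intro q hq
    have h1 : (1 : ℝ) ≤ i q := by exact_mod_cast hi1 q hq
    have hd : 0 < |y q| := lt_of_lt_of_le (div_pos hc hQ0) (hlow q hq)
    have h2 : (i q : ℝ) ≤ |y q| * Q / c := by
      rw [hi]
      exact Nat.floor_le (by positivity)
    rw [le_div_iff₀ hc] at h2
    rw [div_mul_div_comm, mul_one, div_le_div_iff₀ hd (by positivity)]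
    linarith
  have hinj : ∀ P : Finset ℕ, P ⊆ Icc 1 Q →
      (∀ q ∈ P, ∀ q' ∈ P, |y q - y q'| = |(|y q| - |y q'|)|) → Set.InjOn i (P : Set ℕ) := by
    intro P hP hs q hq q' hq' he
    by_contra hne
    have hq2 := hP (mem_coe.1 hq)
    have hq2' := hP (mem_coe.1 hq')
    have h1 := hsp q q' hq2 hq2' hne
    rw [hs q (mem_coe.1 hq) q' (mem_coe.1 hq')] at h1
    have h2 : |(|y q| * Q / c - |y q'| * Q / c)| < 1 := by
      have f1 := Nat.floor_le (show 0 ≤ |y q| * Q / c by positivity)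
      have f2 := Nat.lt_floor_add_one (|y q| * Q / c)
      have f3 := Nat.floor_le (show 0 ≤ |y q'| * Q / c by positivity)
      have f4 := Nat.lt_floor_add_one (|y q'| * Q / c)
      rw [← hi] at f1 f2 f3 f4
      rw [he] at f1 f2
      rw [abs_lt]
      constructor <;> linarith
    have h3 : |y q| * Q / c - |y q'| * Q / c = (|y q| - |y q'|) * (Q / c) := by ring
    rw [h3, abs_mul, abs_of_pos (show 0 < (Q : ℝ) / c by positivity)] at h2
    have h4 : c / Q * (Q / c) ≤ |(|y q| - |y q'|)| * (Q / c) :=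
      mul_le_mul_of_nonneg_right h1 (by positivity)
    have h5 : c / Q * (Q / c) = 1 := by
      field_simp
    linarith
  have hH : ∑ j ∈ Icc 1 N, 1 / (j : ℝ) ≤ 1 + B + Real.log Q := by
    have h1 : ∑ j ∈ Icc 1 N, 1 / (j : ℝ) = ((harmonic N : ℚ) : ℝ) := by
      rw [harmonic_eq_sum_Icc]
      push_cast
      exact sum_congr rfl fun j _ => one_div _
    rw [h1]
    have h2 := harmonic_le_one_add_log N
    have h3 : Real.log N ≤ B + Real.log Q := by
      by_cases hN0 : N = 0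
      · rw [hN0, Nat.cast_zero, Real.log_zero]
        linarith
      · have hN1 : (0 : ℝ) < N := by exact_mod_cast Nat.pos_of_ne_zero hN0
        have h4 : (N : ℝ) ≤ Q / (2 * c) := by
          rw [hN]
          exact Nat.floor_le (by positivity)
        have h5 := Real.log_le_log hN1 h4
        have h6 : (Q : ℝ) / (2 * c) = 1 / (2 * c) * Q := by ring
        rw [h6, Real.log_mul (by positivity) hQ0.ne'] at h5
        have h7 := le_abs_self (Real.log (1 / (2 * c)))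
        rw [← hB] at h7
        linarith
    linarith
  have hpart : ∀ P : Finset ℕ, P ⊆ Icc 1 Q →
      (∀ q ∈ P, ∀ q' ∈ P, |y q - y q'| = |(|y q| - |y q'|)|) →
      ∑ q ∈ P, 1 / |y q| ≤ Q / c * (1 + B + Real.log Q) := by
    intro P hP hs
    calc ∑ q ∈ P, 1 / |y q| ≤ ∑ q ∈ P, Q / c * (1 / (i q : ℝ)) :=
          sum_le_sum fun q hq => hib q (hP hq)
      _ = Q / c * ∑ j ∈ P.image i, 1 / (j : ℝ) := by
          rw [sum_image (fun a ha b hb hab => hinj P hP hs ha hb hab), mul_sum]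
      _ ≤ Q / c * ∑ j ∈ Icc 1 N, 1 / (j : ℝ) := by
          refine mul_le_mul_of_nonneg_left ?_ (by positivity)
          refine sum_le_sum_of_subset_of_nonneg ?_ fun j _ _ => by positivity
          intro j hj
          obtain ⟨q, hq, rfl⟩ := mem_image.1 hj
          exact mem_Icc.2 ⟨hi1 q (hP hq), hiN q⟩
      _ ≤ Q / c * (1 + B + Real.log Q) := mul_le_mul_of_nonneg_left hH (by positivity)
  have hsum : ∑ q ∈ Icc 1 Q, 1 / |(q : ℝ) * α - round ((q : ℝ) * α)| =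
      ∑ q ∈ Icc 1 Q, 1 / |y q| := sum_congr rfl fun q _ => by rw [hy]
  rw [hsum, ← sum_filter_add_sum_filter_not (Icc 1 Q) (fun q => 0 ≤ y q)]
  have hp1 := hpart ((Icc 1 Q).filter fun q => 0 ≤ y q) (filter_subset _ _) (by
    intro q hq q' hq'
    rw [abs_of_nonneg (mem_filter.1 hq).2, abs_of_nonneg (mem_filter.1 hq').2])
  have hp2 := hpart ((Icc 1 Q).filter fun q => ¬ 0 ≤ y q) (filter_subset _ _) (by
    intro q hq q' hq'
    have h1 := lt_of_not_ge (mem_filter.1 hq).2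
    have h2 := lt_of_not_ge (mem_filter.1 hq').2
    rw [abs_of_neg h1, abs_of_neg h2, neg_sub_neg, abs_sub_comm])
  refine (add_le_add hp1 hp2).trans ?_
  have e : Q / c * (1 + B + Real.log Q) + Q / c * (1 + B + Real.log Q) =
      2 / c * (Q * (1 + B + Real.log Q)) := by ring
  rw [e, mul_assoc]
  refine mul_le_mul_of_nonneg_left ?_ (by positivity)
  have h9 : (Q : ℝ) * (1 + B + Real.log Q) ≤ Q * ((1 + B) * (1 + Real.log Q)) := by
    refine mul_le_mul_of_nonneg_left ?_ hQ0.le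
    nlinarith [mul_nonneg hB0 hlogQ]
  calc (Q : ℝ) * (1 + B + Real.log Q) ≤ Q * ((1 + B) * (1 + Real.log Q)) := h9
    _ = (1 + B) * (Q * (1 + Real.log Q)) := by ring

end Pool.Agent.H587.PI
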