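import Mathlib
import Pool.Agent.H587.FD.Final
import Pool.Agent.H587.PI.Conv
import Pool.Agent.H587.PI.PISUM
import Pool.Agent.H587.PI.PIMON

set_option autoImplicit false

open Finset MeasureTheory Filter

namespace Pool.Agent.H587.PI

open Pool.Agent.H587.FD (e)

lemma irr_of_bad (α c : ℝ) (hc : 0 < c) (h : ∀ q : ℕ, 1 ≤ q → c ≤ q * |(q : ℝ) * α - round ((q : ℝ) * α)|) :
    Irrational α := by
  rintro ⟨x, hx⟩
  have h1 := h x.den x.den_pos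
  have h2 : (x.den : ℝ) * α = ((x.num : ℤ) : ℝ) := by
    rw [← hx]
    exact_mod_cast Rat.den_mul_eq_num x
  rw [h2, round_intCast] at h1
  simp at h1
  linarith

/-- the convergence half for badly approximable `α` -/
theorem part_bad (μ : Measure ℝ) [IsProbabilityMeasure μ] (C δ : ℝ) (hδ : 1 / 2 < δ)
    (hμ : ∀ n : ℤ, n ≠ 0 → ‖∫ x, e (n * x) ∂μ‖ ≤ C * |(n : ℝ)| ^ (-δ))
    (α c : ℝ) (hc : 0 < c) (h : ∀ q : ℕ, 1 ≤ q → c ≤ q * |(q : ℝ) * α - round ((q : ℝ) * α)|)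
    (γ ψ : ℕ → ℝ) (hψ : ∀ q, 0 ≤ ψ q) (hmono : Antitone ψ)
    (hs : Summable fun q : ℕ => ψ q * Real.log q) :
    ∀ᵐ β ∂μ, {q : ℕ | |q * α - round (q * α)| * |(q * β - γ q) - round (q * β - γ q)| < ψ q}.Finite := by
  obtain ⟨C₂, h1, h2⟩ := sum_inv α c hc h
  have h3 := summable_of_mono (fun q : ℕ => 1 / |(q : ℝ) * α - round ((q : ℝ) * α)|) (fun q => by positivity) C₂ h1 h2 ψ hψ hmono hs
  apply part_conv μ C δ hδ hμ α (irr_of_bad α c hc h) γ ψ hψ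
  refine h3.congr (fun q => ?_)
  rw [mul_one_div]

lemma hmax_of_bad (α c : ℝ) (hc : 0 < c) (h : ∀ q : ℕ, 1 ≤ q → c ≤ q * |(q : ℝ) * α - round ((q : ℝ) * α)|)
    (ψ : ℕ → ℝ) : ∀ ε : ℝ, 0 < ε → ∃ c : ℝ, 0 < c ∧ ∀ q : ℕ, 1 ≤ q →
      c * (q : ℝ) ^ (-1 - ε) ≤ max |q * α - round (q * α)| (ψ q) := by
  intro ε hε
  refine ⟨c, hc, fun q hq => le_trans ?_ (le_max_left _ _)⟩
  have hq1 : (1 : ℝ) ≤ q := by exact_mod_cast hq
  have hq0 : (0 : ℝ) < q := by linarith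
  have h1 := h q hq
  have h2 : (q : ℝ) ^ (-1 - ε) ≤ (q : ℝ) ^ (-1 : ℝ) := Real.rpow_le_rpow_of_exponent_le hq1 (by linarith)
  rw [Real.rpow_neg_one] at h2
  calc c * (q : ℝ) ^ (-1 - ε) ≤ c * (q : ℝ)⁻¹ := by gcongr
    _ ≤ (q * |(q : ℝ) * α - round ((q : ℝ) * α)|) * (q : ℝ)⁻¹ := by gcongr
    _ = _ := by field_simp

end Pool.Agent.H587.PI
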