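import Mathlib
import Pool.Agent.H587.PI.Conv
import Pool.Agent.H587.PI.PIMON

set_option autoImplicit false

open Finset MeasureTheory Filter

namespace Pool.Agent.H587.PI

open Pool.Agent.H587.FD (e)

lemma pnorm_eq (p : ℕ) (hp : p.Prime) (k v : ℕ) (hv : ¬ p ∣ v) :
    ((padicNorm p ((p ^ k * v : ℕ) : ℚ) : ℚ) : ℝ) = ((p : ℝ) ^ k)⁻¹ := by
  have := Fact.mk hp
  have h0 : padicNorm p ((p : ℚ) ^ k) = ((p : ℚ) ^ k)⁻¹ := by
    induction k with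
    | zero => simp
    | succ K ih =>
      rw [pow_succ, padicNorm.mul, ih, padicNorm.padicNorm_p hp.one_lt, mul_inv]
  have h1 : padicNorm p ((p ^ k * v : ℕ) : ℚ) = ((p : ℚ) ^ k)⁻¹ := by
    push_cast
    rw [padicNorm.mul, h0, (padicNorm.nat_eq_one_iff v).2 hv, mul_one]
  rw [h1]
  push_cast
  rfl

lemma inv_norm_le (p : ℕ) (hp : p.Prime) (Q q : ℕ) (h1 : 1 ≤ q) (h2 : q ≤ Q) :
    ((padicNorm p (q : ℚ) : ℚ) : ℝ)⁻¹ ≤ ∑ j ∈ range (Nat.log p Q + 1), if p ^ j ∣ q then (p : ℝ) ^ j else 0 := by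
  obtain ⟨k, v, hv, rfl⟩ := Nat.exists_eq_pow_mul_and_not_dvd (n := q) (by omega) p hp.ne_one
  rw [pnorm_eq p hp k v hv, inv_inv]
  have hv1 : 1 ≤ v := by
    rcases Nat.eq_zero_or_pos v with h | h
    · rw [h, mul_zero] at h1; omega
    · exact h
  have hk : k < Nat.log p Q + 1 := by
    rw [Nat.lt_succ_iff, Nat.le_log_iff_pow_le hp.one_lt (by omega)]
    exact (Nat.le_mul_of_pos_right _ hv1).trans h2
  have h3 : (p : ℝ) ^ k = if p ^ k ∣ p ^ k * v then (p : ℝ) ^ k else 0 := by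
    rw [if_pos (dvd_mul_right _ _)]
  rw [h3]
  apply single_le_sum (f := fun j => if p ^ j ∣ p ^ k * v then (p : ℝ) ^ j else 0) (fun j _ => ?_) (mem_range.2 hk)
  split_ifs <;> positivity

lemma sum_norm (p : ℕ) (hp : p.Prime) (Q : ℕ) (hQ : 1 ≤ Q) :
    ∑ q ∈ Icc 1 Q, ((padicNorm p (q : ℚ) : ℚ) : ℝ)⁻¹ ≤ 2 * (Q * (1 + Real.log Q)) := by
  have h1 : ∑ q ∈ Icc 1 Q, ((padicNorm p (q : ℚ) : ℚ) : ℝ)⁻¹ ≤
      ∑ q ∈ Icc 1 Q, ∑ j ∈ range (Nat.log p Q + 1), if p ^ j ∣ q then (p : ℝ) ^ j else 0 := by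
    apply sum_le_sum
    intro q hq
    rw [mem_Icc] at hq
    exact inv_norm_le p hp Q q hq.1 hq.2
  refine h1.trans ?_
  rw [sum_comm]
  have h2 : ∀ j ∈ range (Nat.log p Q + 1), ∑ q ∈ Icc 1 Q, (if p ^ j ∣ q then (p : ℝ) ^ j else 0) ≤ Q := by
    intro j _
    rw [← sum_filter, sum_const, nsmul_eq_mul]
    have h3 : ((Icc 1 Q).filter (fun q => p ^ j ∣ q)).card = Q / p ^ j := by
      have := Nat.Ioc_filter_dvd_card_eq_div Q (p ^ j)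
      rw [← this]
      congr 1
    rw [h3]
    have h4 : Q / p ^ j * p ^ j ≤ Q := Nat.div_mul_le_self _ _
    exact_mod_cast h4
  refine (sum_le_sum h2).trans ?_
  rw [sum_const, card_range, nsmul_eq_mul]
  have hQ1 : (1 : ℝ) ≤ Q := by exact_mod_cast hQ
  have h5 : (Nat.log p Q : ℝ) * Real.log 2 ≤ Real.log Q := by
    have h6 : p ^ Nat.log p Q ≤ Q := Nat.pow_log_le_self p (by omega)
    have h7 : (2 : ℝ) ^ Nat.log p Q ≤ Q := by
      have h8 : 2 ^ Nat.log p Q ≤ p ^ Nat.log p Q := Nat.pow_le_pow_left hp.two_le _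
      exact_mod_cast h8.trans h6
    have h9 := Real.log_le_log (by positivity) h7
    rwa [Real.log_pow] at h9
  have h6 := Real.log_two_gt_d9
  have h7 : (0 : ℝ) ≤ Nat.log p Q := Nat.cast_nonneg _
  have h8 : (Nat.log p Q : ℝ) ≤ 2 * Real.log Q := by nlinarith
  push_cast
  have h9 : ((Nat.log p Q : ℝ) + 1) * Q ≤ (2 * Real.log Q + 1) * Q := by gcongr
  nlinarith

lemma pnorm_pos (p : ℕ) (hp : p.Prime) (q : ℕ) (hq : 1 ≤ q) : 0 < ((padicNorm p (q : ℚ) : ℚ) : ℝ) := by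
  obtain ⟨k, v, hv, rfl⟩ := Nat.exists_eq_pow_mul_and_not_dvd (n := q) (by omega) p hp.ne_one
  rw [pnorm_eq p hp k v hv]
  have : (0 : ℝ) < p := by exact_mod_cast hp.pos
  positivity

/-- the convergence half for the `p`-adic product -/
theorem part_padic (μ : Measure ℝ) [IsProbabilityMeasure μ] (C δ : ℝ) (hδ : 1 / 2 < δ)
    (hμ : ∀ n : ℤ, n ≠ 0 → ‖∫ x, e (n * x) ∂μ‖ ≤ C * |(n : ℝ)| ^ (-δ))
    (γ ψ : ℕ → ℝ) (hψ : ∀ q, 0 ≤ ψ q) (hmono : Antitone ψ)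
    (hs : Summable fun q : ℕ => ψ q * Real.log q) (p : ℕ) (hp : p.Prime) :
    ∀ᵐ x ∂μ, {q : ℕ | 1 ≤ q ∧ ((padicNorm p (q : ℚ) : ℚ) : ℝ) * |(q * x - γ q) - round (q * x - γ q)| < ψ q}.Finite := by
  have ha : ∀ q : ℕ, 0 ≤ ((padicNorm p (q : ℚ) : ℚ) : ℝ)⁻¹ := by
    intro q
    rcases Nat.eq_zero_or_pos q with h | h
    · rw [h]; simp
    · have := pnorm_pos p hp q h
      positivity
  have h3 := summable_of_mono (fun q : ℕ => ((padicNorm p (q : ℚ) : ℚ) : ℝ)⁻¹) ha 2 (by norm_num)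
    (fun Q hQ => sum_norm p hp Q hQ) ψ hψ hmono hs
  filter_upwards [conv2 μ C δ hδ hμ γ (fun q : ℕ => ψ q * ((padicNorm p (q : ℚ) : ℚ) : ℝ)⁻¹)
    (fun q => mul_nonneg (hψ q) (ha q)) h3] with x hx
  refine hx.subset ?_
  rintro q ⟨hq1, hq2⟩
  refine ⟨hq1, ?_⟩
  have h4 := pnorm_pos p hp q hq1
  rw [← div_eq_mul_inv, lt_div_iff₀ h4]
  linarith

end Pool.Agent.H587.PI
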